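import Pool.Agent.helper81.NW.Spec

set_option autoImplicit false

namespace Pool.Agent.helper81.NW

open Pool.Agent.helper84.NR
open scoped Classical
open Finset

section
variable {V F : Type} [Fintype V] [Fintype F]

/-- indices of the edges of the segment -/
noncomputable def SEG_EI (M : PMap V F) (x y : V) (B : F) : Finset ℕ :=
  (range (M.len B)).filter (fun k => inb M x y B k)

/-- indices of the vertices of the segment -/
noncomputable def SEG_VI (M : PMap V F) (x y : V) (B : F) : Finset ℕ :=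
  (range (M.len B)).filter (fun k => (∃ a, a ≤ k ∧ sh M x y B a) ∧ ∃ b, k ≤ b ∧ sh M x y B b)

/-- the vertices of the segment -/
noncomputable def SEG_VS (M : PMap V F) (x y : V) (B : F) : Finset V :=
  (SEG_VI M x y B).image (fun k => ww M y B k)

theorem SEG_mVI (M : PMap V F) (x y : V) (B : F) (k : ℕ) : k ∈ SEG_VI M x y B ↔
    ((∃ a, a ≤ k ∧ sh M x y B a) ∧ ∃ b, k ≤ b ∧ sh M x y B b) := by
  rw [SEG_VI, Finset.mem_filter, Finset.mem_range]
  refine ⟨fun h => h.2, fun h => ⟨?_, h⟩⟩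
  obtain ⟨-, b, hb, h2⟩ := h
  exact lt_of_le_of_lt hb h2.2.1

theorem SEG_mEI (M : PMap V F) (x y : V) (B : F) (k : ℕ) : k ∈ SEG_EI M x y B ↔ inb M x y B k := by
  rw [SEG_EI, Finset.mem_filter, Finset.mem_range]
  refine ⟨fun h => h.2, fun h => ⟨?_, h⟩⟩
  obtain ⟨-, b, hb, h2⟩ := h
  exact lt_trans hb h2.2.1

theorem SEG_card (M : PMap V F) (x y : V) (B : F) (hj : ∃ k, sh M x y B k) :
    (SEG_EI M x y B).card + 1 = (SEG_VI M x y B).card := by
  set Sh : Finset ℕ := (range (M.len B)).filter (fun k => sh M x y B k) with hSh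
  have hmemSh : ∀ k, k ∈ Sh ↔ sh M x y B k := by
    intro k
    rw [hSh, Finset.mem_filter, Finset.mem_range]
    exact ⟨fun h => h.2, fun h => ⟨h.2.1, h⟩⟩
  obtain ⟨k0, hk0⟩ := hj
  have hnon : Sh.Nonempty := ⟨k0, (hmemSh k0).mpr hk0⟩
  have h1 : sh M x y B (Sh.max' hnon) := (hmemSh _).mp (Finset.max'_mem Sh hnon)
  have h2 : ∀ b, sh M x y B b → b ≤ Sh.max' hnon := fun b hb =>
    Finset.le_max' Sh b ((hmemSh b).mpr hb)
  have hE : SEG_EI M x y B = (SEG_VI M x y B).erase (Sh.max' hnon) := by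
    ext k
    rw [Finset.mem_erase, SEG_mEI, SEG_mVI]
    constructor
    · rintro ⟨h4, b, hb, hb2⟩
      have := h2 b hb2
      exact ⟨by omega, h4, b, by omega, hb2⟩
    · rintro ⟨h3, h5, b, hb, hb2⟩
      have := h2 b hb2
      exact ⟨h5, Sh.max' hnon, by omega, h1⟩
  rw [hE]
  refine Finset.card_erase_add_one ?_
  rw [SEG_mVI]
  exact ⟨⟨_, le_refl _, h1⟩, ⟨_, le_refl _, h1⟩⟩

theorem SEG_ne (hIDX : IDX_stmt) (hWW0 : WW0_stmt) (M : PMap V F) (y : V) (B : F) (hB : OnV M.toCyc B y)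
    (k : ℕ) (h1 : 1 ≤ k) (h2 : k < M.len B) : ww M y B k ≠ y := by
  intro h
  obtain ⟨w0, -⟩ := hWW0 V F M y B hB
  have h3 := (hIDX V F M.toCyc B (st M y B)).1 k 0 h2 (by omega) (by
    have h4 : M.bd B (st M y B + k) = y := h
    have h5 : M.bd B (st M y B + 0) = y := w0
    rw [h4, h5])
  omega

theorem SEG_inj (hIDX : IDX_stmt) (M : PMap V F) (y : V) (B : F)
    (a b : ℕ) (h1 : a < M.len B) (h2 : b < M.len B) (h : ww M y B a = ww M y B b) : a = b :=
  (hIDX V F M.toCyc B (st M y B)).1 a b h1 h2 h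

theorem SEG_FA (M : PMap V F) (x y : V) (B : F) (hB : OnV M.toCyc B y) (k : ℕ) (hk : sh M x y B k) :
    B ∈ FA M y x := by
  obtain ⟨h1, h2, A, hA, hAw⟩ := hk
  rw [FA, Finset.mem_filter]
  exact ⟨Finset.mem_univ _, hB, A, ww M y B k, hA, ⟨_, rfl⟩, hAw⟩

theorem SEG_FA2 (hIDX : IDX_stmt) (hWW0 : WW0_stmt) (M : PMap V F) (x y : V)
    (hne : ∀ f, ¬ (OnV M.toCyc f x ∧ OnV M.toCyc f y)) (B : F) (v : V) (A : F)
    (hB : OnV M.toCyc B y) (hBv : OnV M.toCyc B v) (hA : OnV M.toCyc A x) (hAv : OnV M.toCyc A v) :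
    ∃ k, sh M x y B k ∧ ww M y B k = v := by
  obtain ⟨a, ha, hav⟩ := (hIDX V F M.toCyc B (st M y B)).2.1 v hBv
  obtain ⟨w0, -⟩ := hWW0 V F M y B hB
  refine ⟨a, ⟨?_, ha, A, hA, ?_⟩, hav⟩
  · rcases Nat.eq_zero_or_pos a with h0 | h0
    · exfalso
      subst h0
      have h5 : M.bd B (st M y B + 0) = y := w0
      rw [h5] at hav
      rw [← hav] at hAv
      exact hne A ⟨hA, hAv⟩
    · exact h0
  · have h6 : ww M y B a = v := hav
    rw [h6]
    exact hAv

theorem SEG_edges (hIDX : IDX_stmt) (hEDG : EDG_stmt) (hWW0 : WW0_stmt) (M : PMap V F) (x y : V) :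
    (univ.filter (fun e => sgE M x y e)).card = ∑ B ∈ FA M y x, (SEG_EI M x y B).card := by
  obtain ⟨e1, e2⟩ := hEDG V F M
  rw [← Finset.card_sigma]
  symm
  refine Finset.card_bij (fun c _ => s(ww M y c.1 c.2, ww M y c.1 (c.2 + 1))) ?_ ?_ ?_
  · rintro ⟨B, k⟩ hc
    rw [Finset.mem_sigma] at hc
    obtain ⟨hB, hk⟩ := hc
    rw [FA, Finset.mem_filter] at hB
    rw [SEG_mEI] at hk
    rw [Finset.mem_filter]
    exact ⟨Finset.mem_univ _, B, hB.2.1, k, hk, rfl⟩
  · rintro ⟨B, k⟩ hc ⟨B', k'⟩ hc' heq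
    rw [Finset.mem_sigma] at hc hc'
    obtain ⟨hB, hk⟩ := hc
    obtain ⟨hB', hk'⟩ := hc'
    rw [FA, Finset.mem_filter] at hB hB'
    rw [SEG_mEI] at hk hk'
    have hB1 : OnV M.toCyc B y := hB.2.1
    have hB1' : OnV M.toCyc B' y := hB'.2.1
    have heq' : s(ww M y B k, ww M y B (k + 1)) = s(ww M y B' k', ww M y B' (k' + 1)) := heq
    obtain ⟨⟨a, ha, ha2⟩, b, hb, hb2⟩ := hk
    obtain ⟨⟨c, hc, hc2⟩, d, hd, hd2⟩ := hk'
    have hp1 : 1 ≤ a := ha2.1
    have hp2 : b < M.len B := hb2.2.1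
    have hp3 : 1 ≤ c := hc2.1
    have hp4 : d < M.len B' := hd2.2.1
    have q1 : k < b := hb
    have q2 : a ≤ k := ha
    have q3 : k' < d := hd
    have q4 : c ≤ k' := hc
    clear ha hb hc hd
    by_cases hBB : B = B'
    · subst hBB
      have hkk : k = k' := by
        rw [Sym2.eq_iff] at heq'
        rcases heq' with ⟨h3, -⟩ | ⟨h3, h4⟩
        · exact SEG_inj hIDX M y B k k' (by omega) (by omega) h3
        · exfalso
          have h5 := SEG_inj hIDX M y B k (k' + 1) (by omega) (by omega) h3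
          have h6 := SEG_inj hIDX M y B (k + 1) k' (by omega) (by omega) h4
          omega
      rw [hkk]
    · exfalso
      have hOE : OnE M.toCyc B s(ww M y B k, ww M y B (k + 1)) := ⟨st M y B + k, rfl⟩
      have hOE' : OnE M.toCyc B' s(ww M y B k, ww M y B (k + 1)) := by
        rw [heq']
        exact ⟨st M y B' + k', rfl⟩
      obtain ⟨u1, u2, u3⟩ := e1 B _ _ hOE
      obtain ⟨u1', u2', -⟩ := e1 B' _ _ hOE'
      obtain ⟨-, -, hw⟩ := M.poly B B' hBB _ _ u3 u1 u2 u1' u2'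
      rcases hw y hB1 hB1' with h3 | h3
      · exact SEG_ne hIDX hWW0 M y B hB1 k (by omega) (by omega) h3.symm
      · exact SEG_ne hIDX hWW0 M y B hB1 (k + 1) (by omega) (by omega) h3.symm
  · intro e he
    rw [Finset.mem_filter] at he
    obtain ⟨-, B, hB, k, hk, rfl⟩ := he
    refine ⟨⟨B, k⟩, ?_, rfl⟩
    rw [Finset.mem_sigma]
    obtain ⟨⟨a, ha, ha2⟩, -⟩ := id hk
    exact ⟨SEG_FA M x y B hB a ha2, (SEG_mEI M x y B k).mpr hk⟩

theorem SEG_mVS (M : PMap V F) (x y : V) (B : F) (v : V) : v ∈ SEG_VS M x y B ↔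
    ∃ k, ((∃ a, a ≤ k ∧ sh M x y B a) ∧ ∃ b, k ≤ b ∧ sh M x y B b) ∧ ww M y B k = v := by
  rw [SEG_VS, Finset.mem_image]
  constructor
  · rintro ⟨k, hk, h⟩
    exact ⟨k, (SEG_mVI M x y B k).mp hk, h⟩
  · rintro ⟨k, hk, h⟩
    exact ⟨k, (SEG_mVI M x y B k).mpr hk, h⟩

theorem SEG_cVS (hIDX : IDX_stmt) (M : PMap V F) (x y : V) (B : F) :
    (SEG_VS M x y B).card = (SEG_VI M x y B).card := by
  rw [SEG_VS]
  refine Finset.card_image_of_injOn ?_
  intro a ha b hb hab
  have ha' := (SEG_mVI M x y B a).mp ha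
  have hb' := (SEG_mVI M x y B b).mp hb
  obtain ⟨-, c, hc, hc2⟩ := ha'
  obtain ⟨-, d, hd, hd2⟩ := hb'
  exact SEG_inj hIDX M y B a b (lt_of_le_of_lt hc hc2.2.1) (lt_of_le_of_lt hd hd2.2.1) hab

theorem SEG_pt (hIDX : IDX_stmt) (hEDG : EDG_stmt) (hDEG : DEG_stmt) (hWW0 : WW0_stmt)
    (M : PMap V F) (x y : V) (h : NF M x y) (v : V) :
    ((FA M y x).filter (fun B => v ∈ SEG_VS M x y B)).card =
      (if sgV M x y v then 1 else 0) + (if v ∈ sp M x y then 1 else 0) := by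
  obtain ⟨d1, d2, -, -, -⟩ := hDEG V F M y
  obtain ⟨e1, e2⟩ := hEDG V F M
  by_cases hs : v ∈ sp M x y
  · have hs' := hs
    rw [sp, Finset.mem_filter] at hs'
    obtain ⟨-, hadj, A, hAx, hAv⟩ := hs'
    have hall : ∀ B, OnV M.toCyc B y → OnV M.toCyc B v →
        ∃ k, sh M x y B k ∧ ww M y B k = v := fun B hB hBv =>
      SEG_FA2 hIDX hWW0 M x y h.ne B v A hB hBv hAx hAv
    have hcard := d2 v hadj
    have heq : (FA M y x).filter (fun B => v ∈ SEG_VS M x y B) =
        univ.filter (fun B => OnV M.toCyc B y ∧ OnV M.toCyc B v) := by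
      ext B
      rw [Finset.mem_filter, Finset.mem_filter]
      constructor
      · rintro ⟨h1, h2⟩
        rw [FA, Finset.mem_filter] at h1
        rw [SEG_mVS] at h2
        obtain ⟨k, -, hk⟩ := h2
        exact ⟨Finset.mem_univ _, h1.2.1, ⟨_, hk⟩⟩
      · rintro ⟨-, h1, h2⟩
        obtain ⟨k, hk, hkv⟩ := hall B h1 h2
        refine ⟨SEG_FA M x y B h1 k hk, ?_⟩
        rw [SEG_mVS]
        exact ⟨k, ⟨⟨k, le_refl _, hk⟩, ⟨k, le_refl _, hk⟩⟩, hkv⟩
    have hsg : sgV M x y v := by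
      have hpos : 0 < (univ.filter (fun B => OnV M.toCyc B y ∧ OnV M.toCyc B v)).card := by
        rw [hcard]
        norm_num
      obtain ⟨B, hB⟩ := Finset.card_pos.mp hpos
      rw [Finset.mem_filter] at hB
      obtain ⟨k, hk, hkv⟩ := hall B hB.2.1 hB.2.2
      exact ⟨B, hB.2.1, k, ⟨k, le_refl _, hk⟩, ⟨k, le_refl _, hk⟩, hkv.symm⟩
    rw [heq, hcard, if_pos hs, if_pos hsg]
  · by_cases hg : sgV M x y v
    · rw [if_neg hs, if_pos hg, add_zero, Finset.card_eq_one]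
      obtain ⟨B, hB, k, ⟨a, ha, ha2⟩, ⟨b, hb, hb2⟩, hv⟩ := hg
      have hk1 : 1 ≤ k := le_trans ha2.1 ha
      have hk2 : k < M.len B := lt_of_le_of_lt hb hb2.2.1
      have hvy : v ≠ y := by
        rw [hv]
        exact SEG_ne hIDX hWW0 M y B hB k hk1 hk2
      have hBv : OnV M.toCyc B v := ⟨_, hv.symm⟩
      have hnadj : ¬ Adj M.toCyc y v := by
        intro hadj
        have hnsh : ¬ sh M x y B k := by
          rintro ⟨-, -, A, hA, hAw⟩
          refine hs ?_
          rw [sp, Finset.mem_filter]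
          rw [← hv] at hAw
          exact ⟨Finset.mem_univ _, hadj, A, hA, hAw⟩
        have hE := e2 B y v hadj hB hBv
        obtain ⟨w0, -⟩ := hWW0 V F M y B hB
        have h4 := (hIDX V F M.toCyc B (st M y B)).2.2.2.1 0 k (by omega) hk2 (by
          have h5 : M.bd B (st M y B + 0) = y := w0
          have h6 : M.bd B (st M y B + k) = v := hv.symm
          rw [h5, h6]
          exact hE)
        rcases h4 with h4 | ⟨-, h4⟩
        · have : a = k := by
            have := ha2.1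
            omega
          exact hnsh (this ▸ ha2)
        · have : b = k := by
            have := hb2.2.1
            omega
          exact hnsh (this ▸ hb2)
      refine ⟨B, ?_⟩
      rw [Finset.eq_singleton_iff_unique_mem]
      constructor
      · rw [Finset.mem_filter, SEG_mVS]
        exact ⟨SEG_FA M x y B hB a ha2, k, ⟨⟨a, ha, ha2⟩, ⟨b, hb, hb2⟩⟩, hv.symm⟩
      · intro B' hB'
        rw [Finset.mem_filter, SEG_mVS, FA, Finset.mem_filter] at hB'
        obtain ⟨⟨-, hB1', -⟩, k', -, hk'⟩ := hB'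
        exact d1 v B' B hvy hnadj hB1' ⟨_, hk'⟩ hB hBv
    · rw [if_neg hs, if_neg hg, add_zero, Finset.card_eq_zero, Finset.filter_eq_empty_iff]
      intro B hB hv
      rw [FA, Finset.mem_filter] at hB
      rw [SEG_mVS] at hv
      obtain ⟨k, ⟨h1, h2⟩, hk⟩ := hv
      exact hg ⟨B, hB.2.1, k, h1, h2, hk.symm⟩

theorem SEG_verts (hIDX : IDX_stmt) (hEDG : EDG_stmt) (hDEG : DEG_stmt) (hWW0 : WW0_stmt)
    (M : PMap V F) (x y : V) (h : NF M x y) :
    ∑ B ∈ FA M y x, (SEG_VI M x y B).card =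
      (univ.filter (fun v => sgV M x y v)).card + (sp M x y).card := by
  have h1 := Finset.sum_card_bipartiteAbove_eq_sum_card_bipartiteBelow
    (s := FA M y x) (t := (univ : Finset V)) (fun B v => v ∈ SEG_VS M x y B)
  have h2 : ∀ B, (Finset.bipartiteAbove (fun B v => v ∈ SEG_VS M x y B) (univ : Finset V) B).card =
      (SEG_VI M x y B).card := by
    intro B
    rw [← SEG_cVS hIDX M x y B, Finset.bipartiteAbove, Finset.filter_mem_eq_inter, Finset.univ_inter]
  have h3 : ∀ v, (Finset.bipartiteBelow (fun B v => v ∈ SEG_VS M x y B) (FA M y x) v).card =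
      (if sgV M x y v then 1 else 0) + (if v ∈ sp M x y then 1 else 0) := by
    intro v
    rw [Finset.bipartiteBelow]
    exact SEG_pt hIDX hEDG hDEG hWW0 M x y h v
  calc ∑ B ∈ FA M y x, (SEG_VI M x y B).card
      = ∑ B ∈ FA M y x, (Finset.bipartiteAbove (fun B v => v ∈ SEG_VS M x y B) (univ : Finset V) B).card :=
        Finset.sum_congr rfl (fun B _ => (h2 B).symm)
    _ = ∑ v, (Finset.bipartiteBelow (fun B v => v ∈ SEG_VS M x y B) (FA M y x) v).card := h1
    _ = ∑ v, ((if sgV M x y v then 1 else 0) + (if v ∈ sp M x y then 1 else 0)) :=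
        Finset.sum_congr rfl (fun v _ => h3 v)
    _ = (univ.filter (fun v => sgV M x y v)).card + (sp M x y).card := by
        rw [Finset.sum_add_distrib, ← Finset.card_filter, ← Finset.card_filter,
          Finset.filter_mem_eq_inter, Finset.univ_inter]

end

theorem SEG (hIDX : IDX_stmt) (hEDG : EDG_stmt) (hDEG : DEG_stmt) (hWW0 : WW0_stmt) : SEG_stmt := by
  intro V F _ _ M x y h
  have h1 := SEG_edges hIDX hEDG hWW0 M x y
  have h2 := SEG_verts hIDX hEDG hDEG hWW0 M x y h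
  have h3 : ∑ B ∈ FA M y x, (SEG_VI M x y B).card =
      ∑ B ∈ FA M y x, (SEG_EI M x y B).card + (FA M y x).card := by
    rw [Finset.card_eq_sum_ones, ← Finset.sum_add_distrib]
    refine Finset.sum_congr rfl (fun B hB => ?_)
    rw [FA, Finset.mem_filter] at hB
    obtain ⟨-, hBy, A, v, hA, hBv, hAv⟩ := hB
    obtain ⟨k, hk, -⟩ := SEG_FA2 hIDX hWW0 M x y h.ne B v A hBy hBv hA hAv
    exact (SEG_card M x y B ⟨k, hk⟩).symm
  omega

end Pool.Agent.helper81.NW

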